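import Pool.Agent.N789.MO.Stm

/-!
Project MOU (helper789), part LOW: lower bound for the mean square, by helper602.
-/

set_option autoImplicit false

open Finset

namespace Pool.Agent.N602.MO

open Pool.Agent.N789.MO

/-- the defect at a prime -/
noncomputable def aa (h : ℕ → ℂ) (p : ℕ) : ℝ := 2 * |1 + (h p).re|

theorem aa_nonneg (h : ℕ → ℂ) (p : ℕ) : 0 ≤ aa h p := by unfold aa; positivity

theorem prime_low (h : ℕ → ℂ) (p : ℕ) : 1 - aa h p ≤ ‖h p‖ ^ 2 := by
  unfold aa
  have h1 : |(h p).re| ≤ ‖h p‖ := Complex.abs_re_le_norm _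
  have h2 : -(h p).re ≤ ‖h p‖ := (neg_le_abs _).trans h1
  have h3 : 1 + (h p).re ≤ |1 + (h p).re| := le_abs_self _
  have h4 : 0 ≤ |1 + (h p).re| := abs_nonneg _
  have h5 := norm_nonneg (h p)
  generalize |1 + (h p).re| = t at *
  rcases le_or_gt 1 t with ht | ht
  · nlinarith
  · have h6 : 1 - t ≤ ‖h p‖ := by linarith
    have h7 : (1 - t) ^ 2 ≤ ‖h p‖ ^ 2 := pow_le_pow_left₀ (by linarith) h6 2
    nlinarith

/-- the defect of `n` -/
noncomputable def SS (h : ℕ → ℂ) (n : ℕ) : ℝ :=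
  ∑ p ∈ n.primeFactors, (aa h p + if p ^ 2 ∣ n then 1 else 0)

theorem ind_nonneg (p n : ℕ) : (0 : ℝ) ≤ if p ^ 2 ∣ n then 1 else 0 := by
  split_ifs <;> norm_num

theorem SS_nonneg (h : ℕ → ℂ) (n : ℕ) : 0 ≤ SS h n :=
  sum_nonneg fun p _ => add_nonneg (aa_nonneg h p) (ind_nonneg p n)

theorem SS_mul (h : ℕ → ℂ) {m n : ℕ} (hm : m ≠ 0) (hn : n ≠ 0) (hc : Nat.Coprime m n) :
    SS h (m * n) = SS h m + SS h n := by
  unfold SS
  rw [Nat.primeFactors_mul hm hn, sum_union hc.disjoint_primeFactors]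
  congr 1
  · refine sum_congr rfl fun p hp => ?_
    have hp1 := Nat.prime_of_mem_primeFactors hp
    have hp2 := Nat.dvd_of_mem_primeFactors hp
    have h1 : Nat.Coprime (p ^ 2) n := Nat.Coprime.pow_left 2 (Nat.Coprime.coprime_dvd_left hp2 hc)
    have h2 : p ^ 2 ∣ m * n ↔ p ^ 2 ∣ m := ⟨fun h3 => h1.dvd_of_dvd_mul_right h3, fun h3 => h3.mul_right n⟩
    simp only [h2]
  · refine sum_congr rfl fun p hp => ?_
    have hp1 := Nat.prime_of_mem_primeFactors hp
    have hp2 := Nat.dvd_of_mem_primeFactors hp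
    have h1 : Nat.Coprime (p ^ 2) m := Nat.Coprime.pow_left 2 (Nat.Coprime.coprime_dvd_left hp2 hc.symm)
    have h2 : p ^ 2 ∣ m * n ↔ p ^ 2 ∣ n := ⟨fun h3 => h1.dvd_of_dvd_mul_left h3, fun h3 => h3.mul_left m⟩
    simp only [h2]

theorem low_bound {h : ℕ → ℂ} {B : ℝ} (hN : Near h B) (n : ℕ) : 1 ≤ n → 1 - SS h n ≤ ‖h n‖ ^ 2 := by
  induction n using Nat.recOnPosPrimePosCoprime with
  | prime_pow p k hp hk =>
    intro _
    have h1 : SS h (p ^ k) = aa h p + if p ^ 2 ∣ p ^ k then 1 else 0 := by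
      unfold SS
      rw [Nat.primeFactors_prime_pow hk.ne' hp, sum_singleton]
    rw [h1]
    rcases Nat.lt_or_ge k 2 with hk2 | hk2
    · have hk1 : k = 1 := by omega
      subst hk1
      rw [pow_one]
      have h2 := prime_low h p
      have h3 := ind_nonneg p p
      linarith
    · rw [if_pos (pow_dvd_pow p hk2)]
      have h2 := aa_nonneg h p
      have h3 := sq_nonneg ‖h (p ^ k)‖
      linarith
  | zero =>
    intro h0
    omega
  | one =>
    intro _
    rw [hN.one]
    have h1 := SS_nonneg h 1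
    simp only [norm_one, one_pow]
    linarith
  | coprime a b ha hb hab iha ihb =>
    intro _
    rw [hN.mul a b (by omega) (by omega) hab, norm_mul, mul_pow, SS_mul h (by omega) (by omega) hab]
    have h1 := iha (by omega)
    have h2 := ihb (by omega)
    have h3 := SS_nonneg h a
    have h4 := SS_nonneg h b
    have h5 := sq_nonneg ‖h a‖
    have h6 := sq_nonneg ‖h b‖
    generalize SS h a = s at *
    generalize SS h b = t at *
    generalize ‖h a‖ ^ 2 = x at *
    generalize ‖h b‖ ^ 2 = y at *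
    rcases le_or_gt 1 (s + t) with hst | hst
    · nlinarith [mul_nonneg h5 h6]
    · have h7 : (1 - s) * (1 - t) ≤ x * y := mul_le_mul h1 h2 (by linarith) h5
      nlinarith [mul_nonneg h3 h4]

/-- members of a progression divisible by `q` -/
theorem cnt (K q W : ℕ) (hq : 0 < q) (hc : Nat.Coprime q W) :
    ((range K).filter (fun k => q ∣ 1 + W * k)).card ≤ K / q + 1 := by
  have h1 : Set.InjOn (fun k => k / q) ((range K).filter (fun k => q ∣ 1 + W * k) : Set ℕ) := by
    intro x hx z hz hxz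
    simp only [coe_filter, Set.mem_ofPred_eq] at hx hz
    have h2 : W * x ≡ W * z [MOD q] := by
      have h3 : 1 + W * x ≡ 1 + W * z [MOD q] :=
        ((Nat.modEq_zero_iff_dvd).mpr hx.2).trans ((Nat.modEq_zero_iff_dvd).mpr hz.2).symm
      exact Nat.ModEq.add_left_cancel' 1 h3
    have h4 : x % q = z % q := Nat.ModEq.cancel_left_of_coprime hc h2
    have h5 : x / q = z / q := hxz
    rw [← Nat.div_add_mod x q, ← Nat.div_add_mod z q, h4, h5]
  rw [← card_image_of_injOn h1]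
  refine (card_le_card (t := range (K / q + 1)) ?_).trans (by rw [card_range])
  intro x hx
  simp only [mem_image, mem_filter, mem_range] at hx
  obtain ⟨z, hz, rfl⟩ := hx
  rw [mem_range]
  have h3 := Nat.div_le_div_right (c := q) hz.1.le
  omega

theorem cnt1 (K q W : ℕ) (hq : 0 < q) (hc : Nat.Coprime q W) :
    (((range K).filter (fun k => q ∣ 1 + W * k)).card : ℝ) ≤ K / q + 1 := by
  have h1 : (((range K).filter (fun k => q ∣ 1 + W * k)).card : ℝ) ≤ ((K / q + 1 : ℕ) : ℝ) := by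
    exact_mod_cast cnt K q W hq hc
  have h2 : ((K / q : ℕ) : ℝ) ≤ (K : ℝ) / q := Nat.cast_div_le
  push_cast at h1
  linarith

theorem cnt2 (K q W N : ℕ) (hq : 0 < q) (hc : Nat.Coprime q W) (hN : ∀ k < K, 1 + W * k < N) :
    (((range K).filter (fun k => q ∣ 1 + W * k)).card : ℝ) ≤ K / q + N / q := by
  have hq' : (0 : ℝ) < q := by exact_mod_cast hq
  rcases Nat.lt_or_ge q N with h | h
  · have h1 := cnt1 K q W hq hc
    have h2 : (1 : ℝ) ≤ N / q := by
      rw [le_div_iff₀ hq', one_mul]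
      exact_mod_cast h.le
    linarith
  · have h1 : (range K).filter (fun k => q ∣ 1 + W * k) = ∅ := by
      refine filter_eq_empty_iff.2 fun k hk hd => ?_
      have h2 := Nat.le_of_dvd (by omega) hd
      have h3 := hN k (mem_range.1 hk)
      omega
    rw [h1, card_empty, Nat.cast_zero]
    positivity

/-- the summable majorant -/
noncomputable def ff (h : ℕ → ℂ) (p : ℕ) : ℝ := aa h p / p + 1 / (p : ℝ) ^ 2

theorem ff_nonneg (h : ℕ → ℂ) (p : ℕ) : 0 ≤ ff h p := by
  have := aa_nonneg h p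
  unfold ff
  positivity

theorem ff_tail {h : ℕ → ℂ} {B : ℝ} (hN : Near h B) {ε : ℝ} (hε : 0 < ε) :
    ∃ w : ℕ, ∀ s : Finset ℕ, (∀ p ∈ s, p.Prime ∧ w < p) → ∑ p ∈ s, ff h p ≤ ε := by
  have h1 : Summable fun p : Nat.Primes => ff h p := by
    have e1 : Summable fun p : Nat.Primes => 2 * (|1 + (h p).re| / ((p : ℕ) : ℝ)) := hN.re.mul_left 2
    have e2 : Summable fun p : Nat.Primes => 1 / ((p : ℕ) : ℝ) ^ 2 :=
      (Real.summable_one_div_nat_pow.2 one_lt_two).comp_injective Nat.Primes.coe_nat_injective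
    refine (e1.add e2).congr fun p => ?_
    unfold ff aa
    ring
  have h2 : Summable (Set.indicator {p : ℕ | p.Prime} (ff h)) :=
    (summable_subtype_iff_indicator (s := {p : ℕ | p.Prime}) (f := ff h)).1 h1
  obtain ⟨s, hs⟩ := summable_iff_vanishing_norm.1 h2 ε hε
  refine ⟨s.sup id, fun t ht => ?_⟩
  have h3 := hs t (by
    rw [disjoint_left]
    intro p hp hps
    have h4 := (ht p hp).2
    have h5 : p ≤ s.sup id := le_sup (f := id) hps
    omega)
  have h4 : ∑ p ∈ t, Set.indicator {p : ℕ | p.Prime} (ff h) p = ∑ p ∈ t, ff h p :=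
    sum_congr rfl fun p hp => Set.indicator_of_mem (ht p hp).1 _
  rw [h4] at h3
  exact (le_abs_self _).trans h3.le

theorem low : Pool.Agent.N789.MO.S_LOW := by
  intro h B hN
  obtain ⟨w, hw⟩ := ff_tail hN (show (0 : ℝ) < 1 / 4 by norm_num)
  obtain ⟨W, hW⟩ : ∃ W, W = w.factorial := ⟨_, rfl⟩
  have hW0 : 0 < W := by rw [hW]; exact Nat.factorial_pos w
  have hWR : (0 : ℝ) < W := by exact_mod_cast hW0
  obtain ⟨M, hM⟩ := ff_tail hN (show (0 : ℝ) < 1 / (8 * W) by positivity)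
  obtain ⟨C, hC⟩ : ∃ C : ℝ, C = ∑ p ∈ range (M + 1), (aa h p + 1) := ⟨_, rfl⟩
  have hC0 : 0 ≤ C := by
    rw [hC]
    exact sum_nonneg fun p _ => by
      have := aa_nonneg h p
      linarith
  obtain ⟨N₀, hN₀⟩ := exists_nat_ge (8 / 3 * W * (3 / 2 + C))
  refine ⟨1 / (4 * W), by positivity, N₀ + 1, fun N hNN => ?_⟩
  have hNR : 8 / 3 * W * (3 / 2 + C) ≤ N := by
    have : (N₀ : ℝ) ≤ N := by exact_mod_cast (by omega : N₀ ≤ N)
    linarith
  obtain ⟨K, hK⟩ : ∃ K, K = (N - 1) / W := ⟨_, rfl⟩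
  have hK1 : ∀ k < K, 1 + W * k < N := by
    intro k hk
    have h1 : W * K ≤ N - 1 := by rw [hK]; exact Nat.mul_div_le _ _
    have h2 : W * (k + 1) ≤ W * K := Nat.mul_le_mul_left W hk
    rw [Nat.mul_add, Nat.mul_one] at h2
    omega
  have hK2 : (N : ℝ) / W - 2 ≤ K := by
    have h1 : N - 1 < W * (K + 1) := by
      rw [hK]
      exact Nat.lt_mul_div_succ (N - 1) hW0
    have h2 : N ≤ W * (K + 1) := by omega
    have h3 : (N : ℝ) ≤ W * (K + 1) := by exact_mod_cast h2
    have h4 : (N : ℝ) / W ≤ K + 1 := by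
      rw [div_le_iff₀ hWR]
      linarith
    linarith
  have hK3 : (0 : ℝ) ≤ K := Nat.cast_nonneg K
  -- the sum over the progression
  have s1 : ∑ k ∈ range K, ‖h (1 + W * k)‖ ^ 2 ≤ ∑ n ∈ range N, ‖h n‖ ^ 2 := by
    have hinj : Set.InjOn (fun k => 1 + W * k) (range K : Set ℕ) := by
      intro a _ b _ hab
      have h1 : 1 + W * a = 1 + W * b := hab
      exact Nat.eq_of_mul_eq_mul_left hW0 (by omega)
    rw [← sum_image (f := fun n => ‖h n‖ ^ 2) hinj]
    refine sum_le_sum_of_subset_of_nonneg ?_ (fun n _ _ => sq_nonneg _)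
    intro n hn
    obtain ⟨k, hk, rfl⟩ := mem_image.1 hn
    exact mem_range.2 (hK1 k (mem_range.1 hk))
  obtain ⟨PP, hPP⟩ : ∃ PP, PP = (range N).filter (fun p => p.Prime ∧ w < p) := ⟨_, rfl⟩
  have hPm : ∀ p ∈ PP, p.Prime ∧ w < p := fun p hp => by
    rw [hPP] at hp
    exact (mem_filter.1 hp).2
  have s2 : ∀ k ∈ range K, SS h (1 + W * k) ≤ ∑ p ∈ PP, (aa h p * (if p ∣ 1 + W * k then 1 else 0) +
      (if p ^ 2 ∣ 1 + W * k then 1 else 0)) := by
    intro k hk
    have h1 : (1 + W * k).primeFactors ⊆ PP := by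
      intro p hp
      have hp1 := Nat.prime_of_mem_primeFactors hp
      have hp2 := Nat.dvd_of_mem_primeFactors hp
      rw [hPP, mem_filter, mem_range]
      refine ⟨(Nat.le_of_dvd (by omega) hp2).trans_lt (hK1 k (mem_range.1 hk)), hp1, ?_⟩
      by_contra hcon
      have h2 : p ∣ W := by
        rw [hW]
        exact (hp1.dvd_factorial).2 (not_lt.1 hcon)
      have h3 : p ∣ 1 := (Nat.dvd_add_left (h2.mul_right k)).1 hp2
      exact hp1.one_lt.ne' (Nat.dvd_one.1 h3)
    unfold SS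
    calc ∑ p ∈ (1 + W * k).primeFactors, (aa h p + if p ^ 2 ∣ 1 + W * k then 1 else 0) =
        ∑ p ∈ (1 + W * k).primeFactors, (aa h p * (if p ∣ 1 + W * k then 1 else 0) +
          if p ^ 2 ∣ 1 + W * k then 1 else 0) := by
          refine sum_congr rfl fun p hp => ?_
          rw [if_pos (Nat.dvd_of_mem_primeFactors hp), mul_one]
      _ ≤ _ := by
          refine sum_le_sum_of_subset_of_nonneg h1 (fun p _ _ => ?_)
          have h2 := aa_nonneg h p
          have h3 := ind_nonneg p (1 + W * k)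
          have h4 : (0 : ℝ) ≤ if p ∣ 1 + W * k then 1 else 0 := by split_ifs <;> norm_num
          positivity
  have s3 : ∑ k ∈ range K, SS h (1 + W * k) ≤ ∑ p ∈ PP,
      (aa h p * (((range K).filter (fun k => p ∣ 1 + W * k)).card : ℝ) +
        (((range K).filter (fun k => p ^ 2 ∣ 1 + W * k)).card : ℝ)) := by
    refine (sum_le_sum s2).trans (le_of_eq ?_)
    rw [sum_comm]
    refine sum_congr rfl fun p _ => ?_
    rw [sum_add_distrib, ← mul_sum]
    congr 1
    · congr 1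
      rw [← sum_filter]
      simp
    · rw [← sum_filter]
      simp
  have s4 : ∀ p ∈ PP, (aa h p * (((range K).filter (fun k => p ∣ 1 + W * k)).card : ℝ) +
        (((range K).filter (fun k => p ^ 2 ∣ 1 + W * k)).card : ℝ)) ≤
      K * ff h p + (if p ≤ M then aa h p + 1 else N * ff h p) := by
    intro p hp
    obtain ⟨hp1, hp2⟩ := hPm p hp
    have hc : Nat.Coprime p W := by
      rw [hp1.coprime_iff_not_dvd, hW, hp1.dvd_factorial]
      omega
    have hc2 : Nat.Coprime (p ^ 2) W := Nat.Coprime.pow_left 2 hc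
    have ha := aa_nonneg h p
    have hp0 : 0 < p := hp1.pos
    have hp20 : 0 < p ^ 2 := by positivity
    have e1 : ((p ^ 2 : ℕ) : ℝ) = (p : ℝ) ^ 2 := by push_cast; rfl
    by_cases hpM : p ≤ M
    · rw [if_pos hpM]
      have c1 := mul_le_mul_of_nonneg_left (cnt1 K p W hp0 hc) ha
      have c2 := cnt1 K (p ^ 2) W hp20 hc2
      rw [e1] at c2
      unfold ff
      calc _ ≤ aa h p * (K / p + 1) + (K / (p : ℝ) ^ 2 + 1) := add_le_add c1 c2
        _ = _ := by ring
    · rw [if_neg hpM]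
      have c1 := mul_le_mul_of_nonneg_left (cnt2 K p W N hp0 hc hK1) ha
      have c2 := cnt2 K (p ^ 2) W N hp20 hc2 hK1
      rw [e1] at c2
      unfold ff
      calc _ ≤ aa h p * (K / p + N / p) + (K / (p : ℝ) ^ 2 + N / (p : ℝ) ^ 2) := add_le_add c1 c2
        _ = _ := by ring
  have s5 : ∑ p ∈ PP, (K * ff h p + (if p ≤ M then aa h p + 1 else N * ff h p)) ≤
      K * (1 / 4) + (C + N * (1 / (8 * W))) := by
    rw [sum_add_distrib, ← mul_sum, sum_ite, ← mul_sum]
    have t1 := hw PP hPm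
    have t2 : ∑ p ∈ PP.filter (fun p => p ≤ M), (aa h p + 1) ≤ C := by
      rw [hC]
      refine sum_le_sum_of_subset_of_nonneg ?_ (fun p _ _ => by
        have := aa_nonneg h p
        linarith)
      intro p hp
      have := (mem_filter.1 hp).2
      exact mem_range.2 (by omega)
    have t3 := hM (PP.filter (fun p => ¬ p ≤ M)) (fun p hp => by
      have h1 := mem_filter.1 hp
      exact ⟨(hPm p h1.1).1, not_le.1 h1.2⟩)
    have hN0 : (0 : ℝ) ≤ N := Nat.cast_nonneg N
    have t4 := mul_le_mul_of_nonneg_left t1 hK3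
    have t5 := mul_le_mul_of_nonneg_left t3 hN0
    linarith
  have s6 : (K : ℝ) - (K * (1 / 4) + (C + N * (1 / (8 * W)))) ≤ ∑ n ∈ range N, ‖h n‖ ^ 2 := by
    have h1 : ∑ k ∈ range K, (1 - SS h (1 + W * k)) ≤ ∑ k ∈ range K, ‖h (1 + W * k)‖ ^ 2 :=
      sum_le_sum fun k _ => low_bound hN (1 + W * k) (by omega)
    rw [sum_sub_distrib, sum_const, card_range, nsmul_eq_mul, mul_one] at h1
    have h2 := (sum_le_sum s4).trans s5
    linarith
  refine le_trans ?_ s6
  have e1 : (N : ℝ) * (1 / (8 * W)) = 1 / 8 * (N / W) := by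
    field_simp
  have e2 : 1 / (4 * (W : ℝ)) * N = 1 / 4 * (N / W) := by
    field_simp
  have e3 : 8 / 3 * (3 / 2 + C) ≤ N / W := by
    rw [le_div_iff₀ hWR]
    linarith
  rw [e1, e2]
  linarith

end Pool.Agent.N602.MO
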